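import Pool.Agent.helper26.T5.SpecB

set_option autoImplicit false

/-!
# T5 (MP_16912e_nt), row LCM: the maximal content
-/

namespace Pool.Agent.helper26.T5

open NumberField Pool.Agent.helper3.FT Pool.Agent.helper47.RA Pool.Agent.T5

theorem lcm (hLAW : LAW) (hLEMB : LEMB) : LCM := by
  classical
  intro K _ _ Q a T w α hD hPr ha hα hw
  obtain ⟨hα2, hY, hv⟩ := hα
  obtain ⟨E, -, -, -, hnn, -⟩ := hLEMB K Q hD
  -- the set of the contents
  have hbd : ∀ m : ℕ, (∃ β ∈ a ^ 2, α = (m : 𝓞 K) * β) → m ≤ (Q.Y α).natAbs := by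
    rintro m ⟨β, -, hβ⟩
    have h1 : Q.Y α = (m : ℤ) * Q.Y β := by
      rw [hβ]
      have h2 := Q.Y_int_mul (m : ℤ) β
      rw [← h2]
      norm_cast
    have h2 : (m : ℤ) ∣ Q.Y α := ⟨_, h1⟩
    have h3 : m ∣ (Q.Y α).natAbs := Int.natCast_dvd.1 h2
    exact Nat.le_of_dvd (Int.natAbs_pos.2 hY.ne') h3
  let P : ℕ → Prop := fun m => ∃ β ∈ a ^ 2, α = (m : 𝓞 K) * β
  have hP1 : P 1 := ⟨α, hα2, by simp⟩
  set j : ℕ := Nat.findGreatest P (Q.Y α).natAbs with hj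
  have hYpos : 1 ≤ (Q.Y α).natAbs := Int.natAbs_pos.2 hY.ne'
  have hPj : P j := Nat.findGreatest_spec hYpos hP1
  have hj1 : 1 ≤ j := Nat.le_findGreatest hYpos hP1
  have hmax : ∀ m : ℕ, P m → m ≤ j := fun m hm => Nat.le_findGreatest (hbd m hm) hm
  obtain ⟨β, hβ2, hβ⟩ := hPj
  have hjR : (0 : ℝ) < j := by exact_mod_cast hj1
  have hYβ : Q.Y α = (j : ℤ) * Q.Y β := by
    rw [hβ]
    have h2 := Q.Y_int_mul (j : ℤ) β
    rw [← h2]
    norm_cast
  have hvβ : Q.v₁ α = j * Q.v₁ β := by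
    rw [hβ, Q.v₁_mul]
    have h2 := Q.v₁_int (j : ℤ)
    have h3 : ((j : ℤ) : 𝓞 K) = (j : 𝓞 K) := by norm_cast
    rw [h3] at h2
    rw [h2]
    congr 1
    push_cast
    exact abs_of_pos hjR
  have hβ0 : β ≠ 0 := by
    intro h0
    rw [h0, mul_zero] at hβ
    rw [hβ] at hYβ hY
    have h1 : Q.Y (0 : 𝓞 K) = 0 := by
      have h2 := Q.Y_int_mul 0 (0 : 𝓞 K)
      simpa using h2
    omega
  have hα0 : α ≠ 0 := by
    rw [hβ]
    exact mul_ne_zero (by exact_mod_cast (by omega : j ≠ 0)) hβ0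
  refine ⟨j, β, hj1, hβ, ?_, ⟨hβ2, ?_, ?_⟩, ?_⟩
  · intro q hq hdvd
    have h1 : β ∈ Ideal.span {(q : 𝓞 K)} * a ^ 2 := by
      have h2 := Ideal.dvd_iff_le.1 hdvd
      exact h2 (Ideal.mem_span_singleton_self β)
    obtain ⟨δ, hδ, hδβ⟩ := Ideal.mem_span_singleton_mul.1 h1
    have h3 : P (j * q) := ⟨δ, hδ, by rw [hβ, ← hδβ]; push_cast; ring⟩
    have h4 := hmax _ h3
    have h5 := hq.two_le
    nlinarith
  · have h1 : 0 < (j : ℤ) * Q.Y β := by rw [← hYβ]; exact hY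
    have h2 : (0 : ℤ) < j := by exact_mod_cast hj1
    exact (mul_pos_iff_of_pos_left h2).1 h1
  · rw [hvβ, mul_pow] at hv
    rw [mul_div_assoc', le_div_iff₀ (by positivity)]
    linarith
  · by_contra hcon
    push Not at hcon
    obtain ⟨hne, hle⟩ := hcon
    obtain ⟨p, hp, hpj⟩ := Nat.exists_prime_and_dvd hne
    have hpw : p ≤ w := (Nat.le_of_dvd (by omega) hpj).trans hle
    have hppr : p ∈ pr w := Finset.mem_filter.2 ⟨Finset.mem_range.2 (by omega), hp⟩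
    have hpY : (p : ℤ) ∣ Q.Y α := by
      rw [hYβ]
      exact dvd_mul_of_dvd_left (by exact_mod_cast hpj) _
    have e1 := (hLAW K Q a α p hPr ha hp hα0 hα2).1
    have e2 := (hLAW K Q a β p hPr ha hp hβ0 hβ2).1
    have e3 : nn α = j ^ 2 * nn β := by
      have h1 := hnn α
      have h2 := hnn β
      rw [hvβ, mul_pow, ← h2] at h1
      exact_mod_cast h1
    have hN0 : 0 < Ideal.absNorm a := by
      rw [Nat.pos_iff_ne_zero]
      intro h0
      exact ha (Ideal.absNorm_eq_zero_iff.1 h0)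
    have e4 : lamI a α = j ^ 2 * lamI a β := by
      have h1 : Ideal.absNorm a ^ 2 * lamI a α = Ideal.absNorm a ^ 2 * (j ^ 2 * lamI a β) := by
        rw [← e1, e3, e2]
        ring
      exact Nat.eq_of_mul_eq_mul_left (by positivity) h1
    have hpL : p ∣ lamI a α := by
      rw [e4]
      exact dvd_mul_of_dvd_left (dvd_pow hpj two_ne_zero) _
    rcases hw p hppr with h | h
    · exact h.1 hpY
    · exact h.2.2 hpL

end Pool.Agent.helper26.T5
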