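import Pool.Agent.helper3.T5.SpecA

set_option autoImplicit false

/-!
# T5 (MP_16912e_nt), block A, row ACEN: the central set in terms of ideals
-/

namespace Pool.Agent.T5

open Finset NumberField Pool.Agent.helper3.FT Pool.Agent.helper47.RA

theorem ACEN : ACEN_stmt := by
  intro K _ _ Q hD a α γ d t hA hT hd κ N Y Y₂ hN hY hY₂
  have hdR : (0 : ℝ) < d := by exact_mod_cast hd
  have hd2 : (0 : ℝ) < (d : ℝ) ^ 2 := by positivity
  set s : ℝ := √(-(Q.D : ℝ)) with hs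
  have hDR : (0 : ℝ) < -(Q.D : ℝ) := by
    have : (Q.D : ℝ) < 0 := by exact_mod_cast hD
    linarith
  have hdis : (dis t : ℝ) = (Q.D : ℝ) * (d : ℝ) ^ 2 := by
    have h1 := hT.D
    rw [h1]
    push_cast
    ring
  have hsq : √(-(dis t : ℝ)) = s * d := by
    rw [hdis, ← neg_mul, Real.sqrt_mul hDR.le, Real.sqrt_sq hdR.le]
  have hsqN : √(N * (d : ℝ) ^ 2) = √N * d := by
    rw [Real.sqrt_mul hN.le, Real.sqrt_sq hdR.le]
  have hZ : (t.2.2.2 : ℝ) = (Ideal.absNorm a : ℝ) := by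
    rw [hT.Z]
    norm_cast
  have hL : (lam t : ℝ) = (lamI a α : ℝ) := by
    rw [hT.L]
    norm_cast
  have hn : (t.1.1 : ℝ) * d = (Q.Y α : ℝ) := by
    have h1 := hT.n
    rw [← h1]
    push_cast
    ring
  have hk : (t.1.2 : ℝ) * d = |(Q.Y γ : ℝ)| := by
    have h1 := hT.k
    have h2 : ((|Q.Y γ| : ℤ) : ℝ) = |(Q.Y γ : ℝ)| := by push_cast; rfl
    rw [← h2, ← h1]
    push_cast
    ring
  have hN0 : (0 : ℝ) < Ideal.absNorm a := by
    have h1 : Ideal.absNorm a ≠ 0 := fun h0 => hA.ne (Ideal.absNorm_eq_zero_iff.1 h0)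
    exact_mod_cast Nat.pos_of_ne_zero h1
  have hnorm : Q.v₁ α ^ 2 = (Ideal.absNorm a : ℝ) ^ 2 * (lamI a α : ℝ) := by
    have h1 := Q.hnorm α
    rw [← Q.himag hD α] at h1
    have h2 : (Ideal.absNorm a) ^ 2 ∣ Ideal.absNorm (Ideal.span {α}) := by
      have h3 : a ^ 2 ∣ Ideal.span {α} := by
        rw [Ideal.dvd_iff_le, Ideal.span_singleton_le_iff_mem]
        exact hA.mem
      have h4 := map_dvd (Ideal.absNorm (S := 𝓞 K)) h3
      rwa [map_pow] at h4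
    have h3 : Ideal.absNorm a ^ 2 * lamI a α = Ideal.absNorm (Ideal.span {α}) := by
      unfold lamI
      exact Nat.mul_div_cancel' h2
    have h4 : ((Ideal.absNorm a : ℝ) ^ 2 * (lamI a α : ℝ)) = (Ideal.absNorm (Ideal.span {α}) : ℝ) := by
      exact_mod_cast h3
    rw [h4, h1]
    ring
  have hsN : 0 < √N := Real.sqrt_pos.2 hN
  have hl2 : (lam t : ℝ) * √(N * (d : ℝ) ^ 2) ≤ Y₂ * √(-(dis t : ℝ)) ↔
      (Q.v₁ α) ^ 2 ≤ (Ideal.absNorm a : ℝ) ^ 2 * (Y₂ * s / √N) := by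
    rw [hsq, hsqN, hL, hnorm, mul_le_mul_iff_right₀ (by positivity : (0 : ℝ) < (Ideal.absNorm a : ℝ) ^ 2),
      le_div_iff₀ hsN, ← mul_assoc, ← mul_assoc, mul_le_mul_iff_left₀ hdR]
  have hd1 : N * (d : ℝ) ^ 2 / 2 < -(dis t : ℝ) ↔ N / 2 < -(Q.D : ℝ) := by
    rw [hdis]
    constructor
    · intro h
      by_contra hcon
      push Not at hcon
      nlinarith
    · intro h
      nlinarith
  have hd2' : -(dis t : ℝ) ≤ N * (d : ℝ) ^ 2 ↔ -(Q.D : ℝ) ≤ N := by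
    rw [hdis, ← neg_mul, mul_le_mul_iff_left₀ hd2]
  have hs1 : 2 * κ * (t.2.2.2 : ℝ) * √(lam t : ℝ) ≤ t.1.1 * √(-(dis t : ℝ)) ↔
      2 * κ * (Ideal.absNorm a : ℝ) * √(lamI a α : ℝ) ≤ (Q.Y α : ℝ) * s := by
    rw [hsq, hZ, hL, ← hn]
    constructor <;> intro h <;> linarith
  have hs2 : 2 * κ * √(t.2.2.2 : ℝ) * lam t ≤ t.1.2 * √(-(dis t : ℝ)) ↔
      2 * κ * √(Ideal.absNorm a : ℝ) * (lamI a α : ℝ) ≤ |(Q.Y γ : ℝ)| * s := by
    rw [hsq, hZ, hL, ← hk]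
    constructor <;> intro h <;> linarith
  constructor
  · intro hC
    refine ⟨by rw [← hZ]; exact hC.z1, by rw [← hZ]; exact hC.z2, hd1.1 hC.d1, hd2'.1 hC.d2,
      hl2.1 hC.l2, ?_, hs1.1 hC.s1, hs2.1 hC.s2⟩
    rw [← hL]
    exact hC.l1
  · rintro ⟨h1, h2, h3, h4, h5, h6, h7, h8⟩
    exact ⟨hT.tt, by rw [hZ]; exact h1, by rw [hZ]; exact h2, hd1.2 h3, hd2'.2 h4,
      by rw [hL]; exact h6, hl2.2 h5, hs1.2 h7, hs2.2 h8⟩

end Pool.Agent.T5
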